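import Pool.Agent.Y216.SV.Not
import Pool.Agent.TH710.WH.Ten

/-!
MP_e426f4_ag, Q1: rational points on the rationally connected varieties birational to
subvarieties of the variety `W` in `P^N` of the vectors `x` such that, for some polynomial `H` of
degree at most `n`, `x i ^ m = H (a i)` for all `i`.
-/

set_option autoImplicit false

open AlgebraicGeometry CategoryTheory Pool.Agent.W602.GT Pool.Agent.TH710.SP Pool.Agent.TH710.WH
  Pool.Agent.Y190.BV Pool.Agent.Y216.SV

namespace Pool.Agent.Results.MP_e426f4_ag.PowerValueConnected

/-- Let `k` be a finitely generated field of characteristic zero (for example a number field), `X`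
an integral scheme locally of finite type over `k` (for example a smooth projective variety), with
function field `K`. Let `k'` be an algebraically closed extension of `k`, and `L` the function
field of `X_{k'}` (generated by `K` and `k'`, which are linearly disjoint over `k`), of
transcendence degree `w` over `k'`. Let `m ≥ 2`, `4 n + (n + 1) ^ 2 < 2 (N + 1)` and
`n < (w + 1) m`. Suppose that `X` is birational over `k` to a projective variety `V` in `P^N`
(generic point `y`) such that, for distinct elements `a 0, ..., a N` of `k'`, the `m`-th powers of
the coordinates of the points of `V` are the values at the `a i` of polynomials of degree at most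
`n` (`H`, over `L`, for the generic point).

If `X_{k'}` is rationally connected, or has no holomorphic tensor differentials, or is dominated by
a special variety, then `X` is rational over `k`, and its `k`-points are dense. -/
theorem result {k : Type} [Field k] [CharZero k]
    (hk : ∃ S : Finset k, IntermediateField.adjoin ℚ (S : Set k) = ⊤)
    {k' : Type} [Field k'] [IsAlgClosed k'] [CharZero k'] [Algebra k k']
    -- the numbers `a i` in `k'`
    {N n m : ℕ} (hm : 2 ≤ m) (hN : 4 * n + (n + 1) ^ 2 < 2 * (N + 1)) {a : Fin (N + 1) → k'}
    (ha : Function.Injective a)
    -- a scheme over `k` with function field `K`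
    (X : Scheme.{0}) [IsIntegral X] (f : X ⟶ Spec (CommRingCat.of k)) [LocallyOfFiniteType f]
    {K : Type} [Field K] [Algebra k K] (hK : HasFunctionField k K X f)
    -- the function field `L` of `X_{k'}`
    {L : Type} [Field L] [Algebra k L] [Algebra k' L] [Algebra K L] [IsScalarTower k k' L]
    [IsScalarTower k K L] (hL : LinDisjoint k k' K L) {w : ℕ} (hw : Algebra.trdeg k' L = w)
    -- a birational map over `k` to a projective variety `V`
    {y : Fin (N + 1) → K} (hy0 : y ≠ 0) (hgen : coords k y = ⊤)
    (hgen' : coords k' (fun i => algebraMap K L (y i)) = ⊤)
    {H : Polynomial L} (hH : H.natDegree ≤ n)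
    (hb : ∀ i, algebraMap K L (y i) ^ m = H.eval (algebraMap k' L (a i)))
    (hnw : n < (w + 1) * m)
    (hc : RationallyConnected k' (fun i => algebraMap K L (y i)) ∨
      (∀ B, NoTensors k' L w B) ∨ SpecialDominated k' (fun i => algebraMap K L (y i))) :
    PurelyTranscendental k K ∧ RationalPointsDense k X f := by
  have hinf : Infinite k' := inferInstance
  have hy0' : (fun i => algebraMap K L (y i)) ≠ 0 := by
    intro h0
    apply hy0
    funext i
    exact (algebraMap K L).injective (by rw [Pi.zero_apply, map_zero]; exact congrFun h0 i)
  have hy : SubVar (buchi a n m) L w (fun i => algebraMap K L (y i)) :=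
    ⟨hy0', mem_of_poly a n m _ H hH fun i => (hb i).symm, hgen', hw⟩
  have hlin : IsLinear k' (fun i => algebraMap K L (y i)) := by
    rcases hc with hc | hc | hc
    · exact (inLinear_of_rc hm hN ha hy hc).2 hnw
    · exact ((tensors_tfae' hm hN ha hy hnw).out 0 4).1 hc
    · exact (inLinear_of_dominated hm hN ha hy hc).2 hnw
  have h : PurelyTranscendental k K := rational_of_lin hL hy0 hgen (var_of_linear hy0' hlin)
  exact ⟨h, dense_of_rational hk h X f hK⟩

end Pool.Agent.Results.MP_e426f4_ag.PowerValueConnected
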