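import Pool.Agent.Y716.M.Main

/-!
# The Hasse principle for 100% of the rationally connected hypersurfaces in products of
projective spaces over the rational numbers

Let `k ≥ 1`, `n i ≥ 1`, `d i ≥ 1` (`i < k`) with `d i < n i + 1` for at least one `i`, i.e. the smooth
hypersurfaces of multidegree `(d 0, d 1, …)` in `ℙ^(n 0) × ℙ^(n 1) × …` are rationally connected.
Among the hypersurfaces `f = 0` of this multidegree which have points over the real numbers and over
all the `p`-adic fields, `f` running over the integral multihomogeneous forms with coefficients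
bounded by `H`, a proportion tending to `1` as `H → ∞` has a rational point.

There is no exception: the conic bundle surfaces of bidegree `(2, d)` in `ℙ² × ℙ¹`, for which the
Hasse principle can fail, are included.
-/

set_option autoImplicit false

namespace Pool.Agent.Results.MP_e426f4_ag.RandomHypersurfacesInProducts

/-- The forms of multidegree `d` in `k` blocks of variables, the block `i` having `n i + 1`
variables, whose coefficients are integers of absolute value at most `H`. -/
def Forms {k : ℕ} (n d : Fin k → ℕ) (H : ℕ) :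
    Set (MvPolynomial (Σ i : Fin k, Fin (n i + 1)) ℤ) :=
  {f | (∀ s ∈ f.support, ∀ i : Fin k, ∑ j : Fin (n i + 1), s ⟨i, j⟩ = d i) ∧
    ∀ s, |f.coeff s| ≤ (H : ℤ)}

/-- The hypersurface `f = 0` in `ℙ^(n 0) × ℙ^(n 1) × …` has a point over the field `K`: there is a
zero of `f` over `K` all of whose blocks are different from zero. -/
def HasPoint {k : ℕ} {n : Fin k → ℕ} (K : Type) [Field K]
    (f : MvPolynomial (Σ i : Fin k, Fin (n i + 1)) ℤ) : Prop :=
  ∃ x : (Σ i : Fin k, Fin (n i + 1)) → K,
    (∀ i : Fin k, ∃ j : Fin (n i + 1), x ⟨i, j⟩ ≠ 0) ∧ MvPolynomial.aeval x f = 0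

/-- The hypersurface `f = 0` has points over the real numbers and over all the `p`-adic fields. -/
def LocallySoluble {k : ℕ} {n : Fin k → ℕ}
    (f : MvPolynomial (Σ i : Fin k, Fin (n i + 1)) ℤ) : Prop :=
  HasPoint ℝ f ∧ ∀ (p : ℕ) [Fact p.Prime], HasPoint ℚ_[p] f

/-- For every rationally connected multidegree, 100% of the everywhere locally soluble
hypersurfaces in a product of projective spaces over `ℚ` have a rational point. -/
theorem result (k : ℕ) (n d : Fin k → ℕ) (hk : 0 < k) (hn : ∀ i, 1 ≤ n i) (hd : ∀ i, 1 ≤ d i)
    (hrc : ∃ i, d i < n i + 1) :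
    Filter.Tendsto (fun H : ℕ =>
        (({f | f ∈ Forms n d H ∧ LocallySoluble f ∧ HasPoint ℚ f} : Set _).ncard : ℝ) /
        (({f | f ∈ Forms n d H ∧ LocallySoluble f} : Set _).ncard : ℝ))
      Filter.atTop (nhds 1) := by
  have h := Pool.Agent.Y716.M.main_all k n d hk hn hd hrc
  unfold Pool.Agent.Y455.M.T at h
  refine h.congr (fun H => ?_)
  simp only [Forms, LocallySoluble, HasPoint, Set.mem_setOf_eq, and_assoc]

end Pool.Agent.Results.MP_e426f4_ag.RandomHypersurfacesInProducts
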